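import Pool.Agent.Q264.KS.Stm

/-! Project KS (helper264), job FINA. -/

namespace Pool.Agent.Q25.KS

open Pool.Agent.Q264.KS

universe u

/-- The functional of an isometric reflection is unique. -/
theorem refl_unique {X : Type u} [NormedAddCommGroup X] [NormedSpace ℝ X] (v : X) (hv : ‖v‖ = 1)
    (g g' : X →ₗ[ℝ] ℝ) (hg : g v = 1) (hR : ∀ z, ‖z - (2 * g z) • v‖ = ‖z‖)
    (hg' : g' v = 1) (hR' : ∀ z, ‖z - (2 * g' z) • v‖ = ‖z‖) (z : X) : g z = g' z := by
  have hS : ∀ y : X, ‖y + (2 * (g y - g' y)) • v‖ = ‖y‖ := by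
    intro y
    have h1 := hR' (y - (2 * g y) • v)
    rw [hR y] at h1
    rw [← h1]
    congr 1
    have h2 : g' (y - (2 * g y) • v) = g' y - 2 * g y := by
      rw [map_sub, map_smul, hg', smul_eq_mul, mul_one]
    rw [h2]
    module
  have hn : ∀ n : ℕ, ‖z + (n * (2 * (g z - g' z))) • v‖ = ‖z‖ := by
    intro n
    induction n with
    | zero => simp
    | succ n ih =>
      have h1 := hS (z + (n * (2 * (g z - g' z))) • v)
      rw [ih] at h1
      have h2 : g (z + (n * (2 * (g z - g' z))) • v) - g' (z + (n * (2 * (g z - g' z))) • v) =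
          g z - g' z := by
        rw [map_add, map_add, map_smul, map_smul, hg, hg']
        ring
      rw [h2] at h1
      rw [← h1]
      congr 1
      push_cast
      module
  have hb : ∀ n : ℕ, (n : ℝ) * |g z - g' z| ≤ ‖z‖ := by
    intro n
    have h1 : ‖((n : ℝ) * (2 * (g z - g' z))) • v‖ ≤ ‖z‖ + ‖z‖ := by
      have h2 : ((n : ℝ) * (2 * (g z - g' z))) • v =
          (z + ((n : ℝ) * (2 * (g z - g' z))) • v) - z := by abel
      rw [h2]
      refine (norm_sub_le _ _).trans ?_
      rw [hn n]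
    rw [norm_smul, hv, mul_one, Real.norm_eq_abs, abs_mul, abs_mul, Nat.abs_cast, abs_two] at h1
    linarith
  by_contra hne
  have hpos : 0 < |g z - g' z| := abs_pos.2 (sub_ne_zero.2 hne)
  obtain ⟨n, hn'⟩ := exists_nat_gt (‖z‖ / |g z - g' z|)
  have h3 := (div_lt_iff₀ hpos).1 hn'
  exact absurd (hb n) (not_le.2 h3)

theorem t_FINA : S_FINA.{u} := by
  intro X _ _ U hUU hU v hv g h hg hR hh hR' z
  have hw : ‖U v‖ = 1 := by rw [hU, hv]
  have h1 := refl_unique (U v) hw h (g.comp U) hh hR' (by simpa [hUU] using hg) (by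
    intro y
    have h2 : y - (2 * (g.comp U) y) • U v = U (U y - (2 * g (U y)) • v) := by
      rw [map_sub, map_smul, hUU]
      rfl
    rw [h2, hU, hR, hU]) (U z)
  rw [h1]
  show g (U (U z)) = g z
  rw [hUU]

end Pool.Agent.Q25.KS
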